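import Pool.Agent.helper93.PX.Spec

/-!
# Row RL: no digit below 1 (MP_2b41e9_nt)
-/

set_option autoImplicit false

namespace Pool.Agent.PX

theorem RL_tail {x y : ℝ} {l : List ℝ} (h : Dec (x :: y :: l)) : y < x ∧ Dec (y :: l) := by
  obtain ⟨h1, h2, h3⟩ := h
  rw [List.isChain_cons_cons] at h1
  refine ⟨h1.1, h1.2, List.cons_ne_nil _ _, ?_⟩
  rw [List.getLast_cons (List.cons_ne_nil _ _)] at h3
  exact h3

theorem RL_one_le (l : List ℝ) : ∀ y : ℝ, Dec (y :: l) → 1 ≤ y := by
  induction l with
  | nil =>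
    intro y h
    obtain ⟨-, h2, h3⟩ := h
    rw [List.getLast_singleton] at h3
    exact h3.ge
  | cons z l ih =>
    intro y h
    obtain ⟨h1, h2⟩ := RL_tail h
    exact (ih z h2).trans h1.le

/-- No digit below 1. -/
theorem RL : RL_stmt := by
  intro T
  induction T with
  | nil =>
    intro x h w hw0 hw1
    obtain ⟨-, h2, h3⟩ := h
    rw [List.getLast_singleton] at h3
    subst h3
    simp only [ratios, run, div_one]
  | cons y l ih =>
    intro x h w hw0 hw1
    obtain ⟨h1, h2⟩ := RL_tail h
    have hy : 1 ≤ y := RL_one_le l y h2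
    have hy0 : 0 < y := by linarith
    have hx0 : 0 < x := by linarith
    have h4 : x / y * (w / x) = w / y := by field_simp
    have h5 : ⌊w / y⌋ = 0 := by
      rw [Int.floor_eq_zero_iff]
      exact ⟨by positivity, by rw [div_lt_one hy0]; linarith⟩
    have h6 : run (ratios (x :: y :: l)) (w / x) = run (ratios (y :: l)) (w / y) := by
      show run (ratios (y :: l)) (x / y * (w / x) - (⌊x / y * (w / x)⌋ : ℝ)) = _
      rw [h4, h5]
      simp
    rw [h6]
    exact ih y h2 w hw0 hw1

end Pool.Agent.PX
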